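import Mathlib
import Pool.Agent.R463.Pair

set_option autoImplicit false

/-!
# Goldbach with one prime and one almost prime summand: the law after primes

For EVERY large even `N`: the number of the primes `n` in a window for which `N - n` has no prime factor
`≤ X ^ (1 / r)`, and the Poisson law of the `l` after them such that neither `l` nor `N - l` has such a
prime factor. (In the problem `N = 2 n` and the two summands are `n + x`, `n - x`.)
-/

namespace Pool.Agent.Results.MP_967f73_nt.LawAfterPrimes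

open Finset Filter
open Pool.Agent.R463.PS

/-- neither `n` nor `N - n` has a prime factor `p ≤ X ^ (1 / r)` -/
def Good (N X r n : ℕ) : Prop :=
  ∀ p : ℕ, p.Prime → (p : ℝ) ≤ (X : ℝ) ^ (1 / (r : ℝ)) → ¬ (p : ℤ) ∣ (n : ℤ) ∧ ¬ (p : ℤ) ∣ (N : ℤ) - n

/-- `1` for the prime factors of `N`, `2` for the other primes -/
def nu (N p : ℕ) : ℕ := if p ∣ N then 1 else 2

/-- the product of `1 - nu(p) / p` over the primes `p ≤ X ^ (1 / r)` -/
noncomputable def V (N X r : ℕ) : ℝ :=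
  ∏ p ∈ (Icc 1 ⌊(X : ℝ) ^ (1 / (r : ℝ))⌋₊).filter Nat.Prime, (1 - (nu N p : ℝ) / p)

/-- the product of `(1 - nu(p) / p) / (1 - 1 / p)` over the primes `p ≤ X ^ (1 / r)` -/
noncomputable def W (N X r : ℕ) : ℝ :=
  ∏ p ∈ (Icc 1 ⌊(X : ℝ) ^ (1 / (r : ℝ))⌋₊).filter Nat.Prime, (1 - (nu N p : ℝ) / p) / (1 - 1 / (p : ℝ))

open Classical in
/-- the PRIMES `n` in `(A, A + L]` which are good -/
noncomputable def Pr (N X r A L : ℕ) : Finset ℕ := (Ioc A (A + L)).filter (fun n => n.Prime ∧ Good N X r n)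

open Classical in
/-- the number of the good integers in `(n, n + T]` -/
noncomputable def Next (N X r T n : ℕ) : ℕ := ((Ioc n (n + T)).filter (fun l => Good N X r l)).card

lemma good_iff (N X r n : ℕ) : Good N X r n ↔ Sifted (Pool.Agent.Y879.GL.pf (-1) N 1 0) X r n := by
  rw [pair_sift]
  unfold Good
  have e : (-1 : ℤ) * (((1 : ℕ) : ℤ) * n + ((0 : ℕ) : ℤ)) + N = N - n := by push_cast; ring
  have e0 : (((1 : ℕ) : ℤ) * n + ((0 : ℕ) : ℤ)) = n := by push_cast; ring
  rw [e, e0]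

lemma om_eq (N p : ℕ) (hp : p.Prime) : Pool.Agent.R463.PS.om (Pool.Agent.Y879.GL.pf (-1) N 1 0) p = nu N p := by
  rw [pair_om (-1) N (by norm_num) 1 0 p hp (by simp) (by
    rw [Nat.cast_one]
    exact isCoprime_one_left)]
  unfold nu
  rw [if_neg (fun h => hp.one_lt.ne' (Nat.dvd_one.1 h))]
  simp only [Int.natCast_dvd_natCast]

lemma V_eq (N X r : ℕ) : V N X r = Pool.Agent.R463.PS.V (Pool.Agent.Y879.GL.pf (-1) N 1 0) X r := by
  unfold V Pool.Agent.R463.PS.V
  apply prod_congr rfl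
  intro p hp
  rw [om_eq N p (mem_filter.1 hp).2]

lemma W_eq (N X r : ℕ) : W N X r = Pool.Agent.R463.PS.W (Pool.Agent.Y879.GL.pf (-1) N 1 0) X r := by
  unfold W Pool.Agent.R463.PS.W
  apply prod_congr rfl
  intro p hp
  rw [om_eq N p (mem_filter.1 hp).2]

lemma Pr_eq (N X r A L : ℕ) :
    Pr N X r A L = Pool.Agent.R463.PS.Pr 1 0 (Pool.Agent.Y879.GL.pf (-1) N 1 0) X r A L := by
  classical
  unfold Pr Pool.Agent.R463.PS.Pr
  apply filter_congr
  intro n _
  rw [good_iff, one_mul, add_zero]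

lemma Next_eq (N X r T n : ℕ) :
    Next N X r T n = Pool.Agent.R463.PS.Next (Pool.Agent.Y879.GL.pf (-1) N 1 0) X r T n := by
  classical
  unfold Next Pool.Agent.R463.PS.Next
  congr 1
  apply filter_congr
  intro l _
  exact good_iff N X r l

/-- **Goldbach with one prime and one almost prime summand: number and Poisson law, for every even
number.** For `E, δ', θ, δ > 0`, `x₀` and `0 < ε ≤ 1` there is `r₀` such that for all `r ≥ r₀` and all
large `X`, uniformly for ALL even `N` with `X ^ δ' < N ≤ X ^ E`, for all `x ≥ X ^ θ` and all windows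
`(A, A + L]` in `(0, x]` with `L ≥ δ x`:
(1) the number of the PRIMES `n` in `(A, A + L]`, `n > X ^ (1 / r)`, such that `N - n` has no prime factor
`≤ X ^ (1 / r)`, is `(1 + η) L W / log x`, `|η| ≤ ε`;
(2) for `T V ≤ x₀` the number of the good integers in `(n, n + T]`, `n` running over the primes in (1), has
the Poisson law of mean `T V`, up to `ε`. -/
theorem result (E δ' θ δ : ℝ) (hE : 0 < E) (hδ' : 0 < δ') (hθ : 0 < θ) (hδ : 0 < δ) (hδ1 : δ ≤ 1)
    (x₀ ε : ℝ) (hε : 0 < ε) (hε1 : ε ≤ 1) :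
    ∃ r₀ : ℕ, ∀ r : ℕ, r₀ ≤ r → ∀ᶠ X : ℕ in atTop, ∀ N : ℕ, Even N → (X : ℝ) ^ δ' < N →
      (N : ℝ) ≤ (X : ℝ) ^ E → 0 < V N X r ∧ 0 < W N X r ∧
      ∀ x : ℕ, (X : ℝ) ^ θ ≤ x → ∀ A L : ℕ, δ * x ≤ L → A + L ≤ x →
        |((Pr N X r A L).card : ℝ) * Real.log x - L * W N X r| ≤ ε * (L * W N X r) ∧
        ∀ T : ℕ, T * V N X r ≤ x₀ → ∀ B : Finset ℕ,
          |(((Pr N X r A L).filter (fun n => Next N X r T n ∈ B)).card : ℝ) -
            (Pr N X r A L).card *
              ∑ j ∈ B, Real.exp (-(T * V N X r)) * (T * V N X r) ^ j / j.factorial| ≤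
            ε * (Pr N X r A L).card := by
  classical
  obtain ⟨r₀, hr₀, h⟩ := Pool.Agent.R463.PS.after 1 2 1 squarefree_one (E + 1) δ' θ δ (by linarith) hδ' hθ hδ
    hδ1 x₀ ε hε hε1
  refine ⟨r₀, fun r hr => ?_⟩
  obtain ⟨M, hM, hV⟩ := pair_V E hE δ' r (hr₀.trans hr)
  filter_upwards [h r hr M, hV, pair_sys E hE δ', eventually_ge_atTop 1] with X h1 h2 h3 h4 N hN hNl hNX
  have hX1 : (1 : ℝ) ≤ X := by exact_mod_cast h4
  have hN0 : (0 : ℝ) < N := lt_trans (Real.rpow_pos_of_pos (by linarith) _) hNl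
  have hN0' : N ≠ 0 := by
    rintro rfl
    simp at hN0
  have habs : |(((N : ℕ) : ℤ) : ℝ)| = N := by
    rw [Int.cast_natCast, abs_of_pos hN0]
  have hXE : (1 : ℝ) ≤ (X : ℝ) ^ E := Real.one_le_rpow hX1 hE.le
  have hok : PairOK X E δ' (-1) (N : ℤ) 1 0 :=
    { he := by norm_num
      hf := by exact_mod_cast hN
      hf0 := by exact_mod_cast hN0'
      hfX := by rw [habs]; exact hNX
      hq := le_rfl
      hqX := by rw [Nat.cast_one]; exact hXE
      haX := by rw [Nat.cast_zero]; linarith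
      hqa := by simp
      hqf := by rw [Nat.cast_one]; exact isCoprime_one_left }
  have hsys := h3 (-1) N 1 0 hok (by rw [habs, Nat.cast_one, one_mul]; exact hNl)
  have hVpos : 0 < V N X r := by
    rw [V_eq, Pool.Agent.R463.PS.V_eq]
    exact Pool.Agent.TH464.PO.Vq_pos _ (Pool.Agent.Y879.GL.us_adm hsys.us) _
  refine ⟨hVpos, ?_, ?_⟩
  · rw [W_eq, Pool.Agent.R463.PS.W_eq, ← V_eq]
    exact div_pos hVpos (Pool.Agent.H373R2.T7.Vz_pos _)
  · intro x hx A L hL hAL
    obtain ⟨g1, g2⟩ := h1 _ 0 hsys (by simp) (fun p n hp hp1 => by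
        exact absurd (Nat.dvd_one.1 hp1) hp.one_lt.ne') ⟨0, fun n => by
          rw [(pf_eval (-1) N 1 0 n).1]⟩ (h2 (-1) N 1 0 hok) (by
          push_cast
          positivity) x hx A L hL hAL
    rw [W_eq, V_eq, Pr_eq]
    refine ⟨g1, ?_⟩
    intro T hT B
    simp only [Next_eq]
    exact g2 T hT B

end Pool.Agent.Results.MP_967f73_nt.LawAfterPrimes
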