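import Pool.Agent.R490.GPd
import Pool.Agent.R490.LPf

set_option autoImplicit false

/-!
# The totient system: `n - x` one of the first primes and `n + x` a product of at most three primes
-/

namespace Pool.Agent.Results.MP_967f73_nt.NearSolutionsFirstPrimes

open Finset Filter

/-- The number of the integers `x` such that `n - x = a ≥ 1` is a solution of `φ(a) + 1 = a`, is one of the first `T`
primes (`π(a) ≤ T`), and `n + x = b ≥ 2` has at most `k` prime factors (counted with multiplicity), all of them at least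
`w`, and satisfies `(1 - k / w) b ≤ φ(b)`. -/
noncomputable def nearSolutions (n k : ℕ) (w T : ℝ) : ℕ :=
  {x : ℤ | ∃ a b : ℕ, (a : ℤ) = n - x ∧ (b : ℤ) = n + x ∧ 1 ≤ a ∧ Nat.totient a + 1 = a ∧
    (Nat.primeCounting a : ℝ) ≤ T ∧ 2 ≤ b ∧ b.primeFactorsList.length ≤ k ∧
    (∀ q : ℕ, q.Prime → q ∣ b → w ≤ q) ∧ (1 - k / w) * b ≤ Nat.totient b}.ncard

/-- the totient of an almost prime -/
lemma tot_low (b k : ℕ) (w : ℝ) (hw : 1 ≤ w) (hb : 1 ≤ b) (hk : b.primeFactorsList.length ≤ k)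
    (hq : ∀ q : ℕ, q.Prime → q ∣ b → w ≤ q) : (1 - k / w) * b ≤ Nat.totient b := by
  have h1 : ((Nat.totient b : ℕ) : ℝ) = b * ∏ p ∈ b.primeFactors, (1 - (p : ℝ)⁻¹) := by
    have := Nat.totient_eq_mul_prod_factors b
    have h2 := congrArg (fun q : ℚ => (q : ℝ)) this
    push_cast at h2
    exact h2
  have hw0 : 0 < w := by linarith
  have h2 : 1 - (k : ℝ) / w ≤ ∏ p ∈ b.primeFactors, (1 - (p : ℝ)⁻¹) := by
    refine le_trans ?_ (R490.LPf.sum_le_prod b.primeFactors (fun p => (p : ℝ)⁻¹) (fun p _ => by positivity) ?_)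
    · have h3 : ∑ p ∈ b.primeFactors, (p : ℝ)⁻¹ ≤ ∑ _p ∈ b.primeFactors, w⁻¹ := by
        apply sum_le_sum
        intro p hp
        have := hq p (Nat.prime_of_mem_primeFactors hp) (Nat.dvd_of_mem_primeFactors hp)
        exact inv_anti₀ hw0 this
      rw [sum_const, nsmul_eq_mul] at h3
      have h4 : (b.primeFactors.card : ℝ) ≤ k := by
        have : b.primeFactors.card ≤ b.primeFactorsList.length := List.toFinset_card_le _
        exact_mod_cast this.trans hk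
      have h5 : (b.primeFactors.card : ℝ) * w⁻¹ ≤ k * w⁻¹ := mul_le_mul_of_nonneg_right h4 (by positivity)
      rw [div_eq_mul_inv]
      linarith
    · intro p hp
      have := (Nat.prime_of_mem_primeFactors hp).one_lt
      have h6 : (1 : ℝ) ≤ p := by exact_mod_cast this.le
      exact inv_le_one_of_one_le₀ h6
  rw [h1, mul_comm]
  exact mul_le_mul_of_nonneg_left h2 (Nat.cast_nonneg _)

lemma cnt_le (n k : ℕ) (w w' T T' : ℝ) (hw : 1 ≤ w) (hww : w ≤ w') (hT : 0 ≤ T) (hTT : T ≤ T') :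
    R490.LGb.cnt (fun _ => 1) (fun j => (-1 : ℤ) * R490.GPa.pn j) k ⌊T⌋₊ (2 * n) w' ≤ nearSolutions n k w T' := by
  classical
  unfold R490.LGb.cnt nearSolutions
  rw [← Set.ncard_coe_finset]
  have hfin : {x : ℤ | ∃ a b : ℕ, (a : ℤ) = n - x ∧ (b : ℤ) = n + x ∧ 1 ≤ a ∧ Nat.totient a + 1 = a ∧
      (Nat.primeCounting a : ℝ) ≤ T' ∧ 2 ≤ b ∧ b.primeFactorsList.length ≤ k ∧
      (∀ q : ℕ, q.Prime → q ∣ b → w ≤ q) ∧ (1 - k / w) * b ≤ Nat.totient b}.Finite := by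
    refine (Set.finite_Icc (-(n : ℤ)) n).subset ?_
    rintro x ⟨a, b, h1, h2, -⟩
    rw [Set.mem_Icc]
    constructor
    · have : (0 : ℤ) ≤ b := Int.natCast_nonneg b
      linarith
    · have : (0 : ℤ) ≤ a := Int.natCast_nonneg a
      linarith
  refine Set.ncard_le_ncard_of_injOn (fun j => (n : ℤ) - R490.GPa.pn j) ?_ ?_ hfin
  · intro j hj
    rw [mem_coe, mem_filter, mem_Icc] at hj
    obtain ⟨⟨h0, h1⟩, h2, h3, h4⟩ := hj
    have hp := R490.GPa.pn_prime j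
    obtain ⟨b, hb⟩ : ∃ b : ℕ, (b : ℤ) = ((1 : ℕ) : ℤ) * ((2 * n : ℕ) : ℤ) + (-1 : ℤ) * R490.GPa.pn j :=
      ⟨(((1 : ℕ) : ℤ) * ((2 * n : ℕ) : ℤ) + (-1 : ℤ) * R490.GPa.pn j).toNat, Int.toNat_of_nonneg (by linarith)⟩
    rw [← hb] at h2 h3 h4
    rw [Int.toNat_natCast] at h3
    have hb2 : 2 ≤ b := by exact_mod_cast h2
    have hq : ∀ q : ℕ, q.Prime → q ∣ b → w ≤ q := fun q hq hd => hww.trans (h4 q hq (by exact_mod_cast hd))
    refine ⟨R490.GPa.pn j, b, by ring, ?_, hp.one_lt.le, ?_, ?_, hb2, h3, hq, ?_⟩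
    · rw [hb]
      push_cast
      ring
    · rw [Nat.totient_prime hp]
      have := hp.one_lt
      omega
    · have e1 : Nat.primeCounting (R490.GPa.pn j) = j := by
        have e2 : Nat.primeCounting (R490.GPa.pn j) = Nat.count Nat.Prime (R490.GPa.pn j + 1) := rfl
        rw [e2, Nat.count_succ, if_pos hp]
        unfold R490.GPa.pn
        rw [Nat.count_nth_of_infinite Nat.infinite_setOfPred_prime]
        omega
      rw [e1]
      exact ((Nat.le_floor_iff hT).1 h1).trans hTT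
    · exact tot_low b k w hw (by omega) h3 hq
  · intro i hi j hj hij
    rw [mem_coe, mem_filter, mem_Icc] at hi hj
    simp only at hij
    have h5 : R490.GPa.pn i = R490.GPa.pn j := by
      have : (R490.GPa.pn i : ℤ) = R490.GPa.pn j := by linarith
      exact_mod_cast this
    exact R490.GPa.pn_inj hi.1.1 hj.1.1 h5

/-- **Near-solutions of the totient system for almost all `n`.** -/
theorem result (θ ε : ℝ) (k : ℕ) (hθ : 0 < θ) (hθ1 : θ ≤ 1) (hk : 1 / 8 + 25 / (12 * θ) < k) (hε : 0 < ε) :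
    ∃ κ Λ : ℝ, 0 < κ ∧ 0 < Λ ∧ ∀ l : ℝ, Λ ≤ l → ∃ X₀ : ℕ, ∀ X : ℕ, X₀ ≤ X → ∀ Z L : ℕ,
      (X : ℝ) ^ θ ≤ L → Z + L ≤ X →
      (({n : ℕ | n ∈ Ioc Z (Z + L) ∧
        (nearSolutions n k ((X : ℝ) ^ (θ / 10)) (l * Real.log X) : ℝ) < κ * l} : Set ℕ).ncard : ℝ) ≤ ε * L := by
  classical
  obtain ⟨κ, Λ, hκ, hΛ, h⟩ := R490.GPd.mainG (-1) (by norm_num) θ (ε / 2) k hθ hθ1 hk (by positivity)
  refine ⟨κ / 2, 2 * Λ, by positivity, by positivity, ?_⟩
  intro l hl
  have hl0 : 0 < l := by linarith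
  obtain ⟨X₀, hX₀⟩ := eventually_atTop.1 (h (l / 2) (by linarith))
  refine ⟨max X₀ 2, ?_⟩
  intro X hX Z L hL hZ
  have hX2 : 2 ≤ X := (le_max_right _ _).trans hX
  have hX1 : X₀ ≤ 2 * X := by
    have := (le_max_left X₀ 2).trans hX
    omega
  have hXr : (2 : ℝ) ≤ X := by exact_mod_cast hX2
  have hL2 : (((2 * X : ℕ) : ℝ)) ^ θ ≤ ((2 * L : ℕ) : ℝ) := by
    push_cast
    rw [Real.mul_rpow (by norm_num) (by linarith)]
    have a1 : (2 : ℝ) ^ θ ≤ 2 := by
      calc (2 : ℝ) ^ θ ≤ (2 : ℝ) ^ (1 : ℝ) := Real.rpow_le_rpow_of_exponent_le (by norm_num) hθ1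
        _ = 2 := Real.rpow_one 2
    exact mul_le_mul a1 hL (by positivity) (by norm_num)
  have h1 := hX₀ (2 * X) hX1 (2 * Z) (2 * L) hL2 (by omega)
  have hwX : (X : ℝ) ^ (θ / 10) ≤ (((2 * X : ℕ) : ℝ)) ^ (θ / 10) := by
    apply Real.rpow_le_rpow (by linarith) _ (by positivity)
    push_cast
    linarith
  have hw1 : 1 ≤ (X : ℝ) ^ (θ / 10) := Real.one_le_rpow (by linarith) (by positivity)
  have hlX : l / 2 * Real.log ((2 * X : ℕ) : ℝ) ≤ l * Real.log X := by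
    have a1 : Real.log ((2 * X : ℕ) : ℝ) ≤ 2 * Real.log X := by
      push_cast
      rw [show (2 : ℝ) * Real.log X = Real.log ((X : ℝ) ^ 2) by rw [Real.log_pow]; norm_num]
      apply Real.log_le_log (by positivity)
      nlinarith
    have a2 := mul_le_mul_of_nonneg_left a1 (by positivity : 0 ≤ l / 2)
    linarith
  have hT0 : 0 ≤ l / 2 * Real.log ((2 * X : ℕ) : ℝ) := by
    apply mul_nonneg (by positivity)
    apply Real.log_nonneg
    push_cast
    linarith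
  obtain ⟨T, hT⟩ : ∃ T, T = (Ioc (2 * Z) (2 * Z + 2 * L)).filter (fun n => R490.GPd.AdmG (-1) n ∧
        (R490.LGb.cnt (fun _ => 1) (fun j => (-1 : ℤ) * R490.GPa.pn j) k ⌊l / 2 * Real.log ((2 * X : ℕ) : ℝ)⌋₊ n
          (((2 * X : ℕ) : ℝ) ^ (θ / 10)) : ℝ) < κ * (l / 2)) := ⟨_, rfl⟩
  rw [← hT] at h1
  have h2 : {n : ℕ | n ∈ Ioc Z (Z + L) ∧
        (nearSolutions n k ((X : ℝ) ^ (θ / 10)) (l * Real.log X) : ℝ) < κ / 2 * l}.ncard ≤ T.card := by
    rw [← Set.ncard_coe_finset]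
    apply Set.ncard_le_ncard_of_injOn (fun n => 2 * n)
    · rintro n ⟨a1, a2⟩
      rw [mem_Ioc] at a1
      rw [mem_coe, hT, mem_filter, mem_Ioc]
      refine ⟨⟨by omega, by omega⟩, ⟨?_, ?_⟩, ?_⟩
      · simp
      · omega
      · have a4 := cnt_le n k _ _ _ _ hw1 hwX hT0 hlX
        have a5 : (R490.LGb.cnt (fun _ => 1) (fun j => (-1 : ℤ) * R490.GPa.pn j) k
            ⌊l / 2 * Real.log ((2 * X : ℕ) : ℝ)⌋₊ (2 * n) (((2 * X : ℕ) : ℝ) ^ (θ / 10)) : ℝ) ≤
            nearSolutions n k ((X : ℝ) ^ (θ / 10)) (l * Real.log X) := by exact_mod_cast a4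
        linarith
    · intro i _ j _ hij
      simp only at hij
      omega
  have h3 : ({n : ℕ | n ∈ Ioc Z (Z + L) ∧
        (nearSolutions n k ((X : ℝ) ^ (θ / 10)) (l * Real.log X) : ℝ) < κ / 2 * l}.ncard : ℝ) ≤ T.card := by
    exact_mod_cast h2
  refine h3.trans (h1.trans (le_of_eq ?_))
  push_cast
  ring

end Pool.Agent.Results.MP_967f73_nt.NearSolutionsFirstPrimes
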