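import Pool.Agent.R461.CF.F4

/-!
# The totient form of Goldbach's conjecture after the subtraction of few random denominators of convergents

Let `q_0, q_1, …` be the denominators of the convergents of a continued fraction `[a_0; a_1, a_2, …]` whose partial
quotients are bounded by `B` (for instance the Fibonacci numbers). Subtract from `N` the sum of `2 t` of these
denominators, whose indices are chosen at random: `t` indices below `L - w` and `t` indices in `[L - w, L)`, where
`4 t q_L ≤ N`, `8 N ≤ q_L log N` and `w` is of the order `log log N`. Except with a probability of at most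
`C e^{-c t} + (log N)^{-U}` the difference `n` has the following property: the number of the integral solutions of the
system `φ(n - x) + 1 = n - x`, `φ(n + x) + 1 = n + x` is asymptotic to the number predicted by Hardy and Littlewood.
The constant `c > 0` depends only on `B`.

So a bounded number of random denominators suffices for a failure probability below any given constant, and
`O(log log N)` random denominators suffice for a failure probability of at most `(log N)^{-U}`.

The proof compares the primes with a sieve model. The fourth moments of the model and the number of the frequencies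
`θ` whose residuals `‖q_j θ‖` are small for almost all `j` of both ranges decide the matter: the first are bounded by
a sum of Romanoff's type for the denominators, the second are few in every neighbourhood of every fraction, because two
consecutive residuals determine all the others.
-/

set_option autoImplicit false

namespace Pool.Agent.Results.MP_967f73_nt.SumsOfFewDenominators

open Finset
open Pool.Agent.H560R3.GB (HL g)
open Pool.Agent.R461.CF (den)

/-- `x` is an integral solution of the system `φ(n - x) + 1 = n - x`, `φ(n + x) + 1 = n + x`. -/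
def Solution (n : ℕ) (x : ℤ) : Prop :=
  1 ≤ (n : ℤ) - x ∧ 1 ≤ (n : ℤ) + x ∧ (Nat.totient ((n : ℤ) - x).toNat : ℤ) + 1 = (n : ℤ) - x ∧
    (Nat.totient ((n : ℤ) + x).toNat : ℤ) + 1 = (n : ℤ) + x

open Classical in
/-- the number of all solutions -/
noncomputable def count (n : ℕ) : ℕ := ((Ioo (-(n : ℤ)) n).filter (fun x => Solution n x)).card

/-- The number of solutions is asymptotic to the prediction `HL (2 n)` of Hardy and Littlewood, and there is a solution
`x ≠ 0`. -/
def Formula (ε : ℝ) (n : ℕ) : Prop :=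
  |(count n : ℝ) - HL (2 * n)| ≤ ε * HL (2 * n) ∧ ∃ x : ℤ, x ≠ 0 ∧ Solution n x

/-- the choices of the indices `i_1, …, i_t` below `L - w` and `j_1, …, j_t` in `[L - w, L)` -/
def choices (L w t : ℕ) : Finset ((Fin t → ℕ) × (Fin t → ℕ)) :=
  Fintype.piFinset (fun _ => range (L - w)) ×ˢ Fintype.piFinset (fun _ => Ico (L - w) L)

/-- the integer `N - (q_{i_1} + … + q_{i_t} + q_{j_1} + … + q_{j_t})` -/
def number (a : ℕ → ℕ) (N : ℕ) {t : ℕ} (c : (Fin t → ℕ) × (Fin t → ℕ)) : ℕ :=
  N - (∑ k, den a (c.1 k) + ∑ k, den a (c.2 k))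

open Classical in
/-- the choices for which the formula fails -/
noncomputable def exceptional (ε : ℝ) (a : ℕ → ℕ) (N L w t : ℕ) : Finset ((Fin t → ℕ) × (Fin t → ℕ)) :=
  (choices L w t).filter (fun c => ¬ Formula ε (number a N c))

lemma tot_prime (m : ℕ) (h1 : 1 ≤ m) (h : m.totient + 1 = m) : m.Prime := by
  have h2 : 2 ≤ m := by
    rcases Nat.lt_or_ge m 2 with h3 | h3
    · have : m = 1 := by omega
      rw [this, Nat.totient_one] at h
      omega
    · exact h3
  exact (Nat.totient_eq_iff_prime (by omega)).1 (by omega)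

lemma sol_iff (n : ℕ) (x : ℤ) (hx1 : -(n : ℤ) < x) (hx2 : x < n) :
    Solution n x ↔ ((n : ℤ) - x).toNat.Prime ∧ ((n : ℤ) + x).toNat.Prime := by
  obtain ⟨u, hu⟩ : ∃ u : ℕ, (u : ℤ) = (n : ℤ) + x := ⟨((n : ℤ) + x).toNat, by omega⟩
  obtain ⟨v, hv⟩ : ∃ v : ℕ, (v : ℤ) = (n : ℤ) - x := ⟨((n : ℤ) - x).toNat, by omega⟩
  have hu' : ((n : ℤ) + x).toNat = u := by omega
  have hv' : ((n : ℤ) - x).toNat = v := by omega
  unfold Solution
  rw [hu', hv', ← hu, ← hv]
  constructor
  · rintro ⟨h1, h2, h3, h4⟩
    exact ⟨tot_prime v (by omega) (by omega), tot_prime u (by omega) (by omega)⟩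
  · rintro ⟨h1, h2⟩
    have a1 := h1.one_lt
    have a2 := h2.one_lt
    refine ⟨by omega, by omega, ?_, ?_⟩
    · rw [Nat.totient_prime h1]
      omega
    · rw [Nat.totient_prime h2]
      omega

lemma count_eq (n : ℕ) : count n = g (2 * n) := by
  classical
  unfold count g
  apply card_bij (fun (x : ℤ) _ => (((n : ℤ) - x).toNat, ((n : ℤ) + x).toNat))
  · intro x hx
    rw [mem_filter, mem_Ioo] at hx
    obtain ⟨⟨h1, h2⟩, h3⟩ := hx
    rw [sol_iff n x h1 h2] at h3
    rw [mem_filter, HasAntidiagonal.mem_antidiagonal]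
    exact ⟨by omega, h3⟩
  · intro x hx y hy hxy
    rw [mem_filter, mem_Ioo] at hx hy
    rw [Prod.mk.injEq] at hxy
    omega
  · rintro ⟨p, r⟩ hp
    rw [mem_filter, HasAntidiagonal.mem_antidiagonal] at hp
    obtain ⟨h1, h2, h3⟩ := hp
    simp only at h1 h2 h3
    have a1 := h2.one_lt
    have a2 := h3.one_lt
    have e1 : ((n : ℤ) - ((r : ℤ) - n)).toNat = p := by omega
    have e2 : ((n : ℤ) + ((r : ℤ) - n)).toNat = r := by omega
    refine ⟨(r : ℤ) - n, ?_, by rw [e1, e2]⟩
    rw [mem_filter, mem_Ioo]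
    refine ⟨⟨by omega, by omega⟩, ?_⟩
    rw [sol_iff n _ (by omega) (by omega), e1, e2]
    exact ⟨h2, h3⟩

lemma formula_of_good (ε : ℝ) (n : ℕ) (h : Pool.Agent.TH894.SM.Good ε (2 * n)) : Formula ε n := by
  obtain ⟨h1, p, r, hp, hr, hpr, hs⟩ := h
  refine ⟨by rw [count_eq]; exact h1, (r : ℤ) - n, ?_, ?_⟩
  · intro h0
    apply hpr
    omega
  · have a1 := hp.one_lt
    have a2 := hr.one_lt
    have e1 : ((n : ℤ) - ((r : ℤ) - n)).toNat = p := by omega
    have e2 : ((n : ℤ) + ((r : ℤ) - n)).toNat = r := by omega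
    rw [sol_iff n _ (by omega) (by omega), e1, e2]
    exact ⟨hp, hr⟩

/-- both parts of a choice as one function -/
def glue {t : ℕ} (c : (Fin t → ℕ) × (Fin t → ℕ)) : Fin 2 × Fin t → ℕ := fun x => if x.1 = 0 then c.1 x.2 else c.2 x.2

lemma glue_inj {t : ℕ} : Function.Injective (glue (t := t)) := by
  rintro ⟨u, v⟩ ⟨u', v'⟩ h
  have h1 : u = u' := by
    funext k
    have := congrFun h (0, k)
    simpa [glue] using this
  have h2 : v = v' := by
    funext k
    have := congrFun h (1, k)
    simpa [glue] using this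
  rw [h1, h2]

lemma glue_sum {t : ℕ} (a : ℕ → ℕ) (c : (Fin t → ℕ) × (Fin t → ℕ)) :
    ∑ x, den a (glue c x) = ∑ k, den a (c.1 k) + ∑ k, den a (c.2 k) := by
  rw [Fintype.sum_prod_type, Fin.sum_univ_two]
  simp [glue]

lemma glue_mem {L w t : ℕ} (c : (Fin t → ℕ) × (Fin t → ℕ)) (hc : c ∈ choices L w t) :
    glue c ∈ Pool.Agent.R461.CF.OmC (Pool.Agent.R461.CF.JG (L - w) L) t := by
  unfold choices at hc
  rw [mem_product, Fintype.mem_piFinset, Fintype.mem_piFinset] at hc
  unfold Pool.Agent.R461.CF.OmC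
  rw [Fintype.mem_piFinset]
  rintro ⟨q, k⟩
  have h1 := hc.1 k
  have h2 := hc.2 k
  unfold Pool.Agent.R461.CF.JG glue
  by_cases hq : q = 0
  · rw [if_pos hq, if_pos hq, mem_Ico]
    rw [mem_range] at h1
    exact ⟨Nat.zero_le _, h1⟩
  · rw [if_neg hq, if_neg hq]
    exact h2

lemma card_choices (L w t : ℕ) : (choices L w t).card = (Pool.Agent.R461.CF.OmC (Pool.Agent.R461.CF.JG (L - w) L) t).card := by
  unfold choices Pool.Agent.R461.CF.OmC
  rw [card_product, Fintype.card_piFinset, Fintype.card_piFinset, Fintype.card_piFinset, Fintype.prod_prod_type, Fin.prod_univ_two]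
  unfold Pool.Agent.R461.CF.JG
  simp

/-- There is a constant `c > 0` which depends only on `B`, with the following property. Let `U` and `ε > 0` be given. There
are `A ≥ 1`, `C` and `N₀` such that for all `N ≥ N₀`, for all partial quotients `a_1, a_2, …` in `[1, B]`, for all `L`, `w`
and `t ≥ 1` with `4 t q_L ≤ N`, `8 N ≤ q_L log N` and `A log log N ≤ w ≤ 2 A log log N` we have `w ≤ L`, and the formula
fails for at most a proportion `C e^{-c t} + (log N)^{-U}` of the choices of the `2 t` denominators. -/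
theorem result (B : ℕ) : ∃ c : ℝ, 0 < c ∧ ∀ (U : ℕ) (ε : ℝ), 0 < ε → ∃ (A : ℕ) (C : ℝ) (N₀ : ℕ), 1 ≤ A ∧
    ∀ N : ℕ, N₀ ≤ N → ∀ a : ℕ → ℕ, (∀ i, 1 ≤ i → 1 ≤ a i ∧ a i ≤ B) → ∀ L w t : ℕ, 1 ≤ t →
    4 * t * den a L ≤ N → 8 * (N : ℝ) ≤ den a L * Real.log N →
    (A : ℝ) * Real.log (Real.log N) ≤ w → (w : ℝ) ≤ 2 * A * Real.log (Real.log N) →
      w ≤ L ∧ ((exceptional ε a N L w t).card : ℝ) ≤
        (C * Real.exp (-c * t) + 1 / Real.log N ^ U) * ((choices L w t).card : ℝ) := by
  classical
  rcases Nat.eq_zero_or_pos B with hB | hB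
  · refine ⟨1, one_pos, fun U ε _ => ⟨1, 0, 0, le_rfl, fun N _ a ha => ?_⟩⟩
    have := ha 1 le_rfl
    omega
  obtain ⟨η, hη0, hη1, hmain⟩ := Pool.Agent.R461.CF.few_denoms B hB
  have h1η : 0 < 1 - η := by linarith
  have hlogη : Real.log (1 - η) < 0 := Real.log_neg h1η (by linarith)
  refine ⟨-Real.log (1 - η), by linarith, fun U ε hε => ?_⟩
  obtain ⟨A, C, N₀, hA, hC, h0⟩ := hmain U ε hε
  refine ⟨A, C, N₀, hA, fun N hN a ha L w t ht hL1 hL2 hw1 hw2 => ?_⟩
  obtain ⟨hwL, h1⟩ := h0 N hN a ha L w t ht hL1 hL2 hw1 hw2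
  refine ⟨hwL, ?_⟩
  have hexp : Real.exp (-(-Real.log (1 - η)) * t) = (1 - η) ^ t := by
    rw [neg_neg, mul_comm, Real.exp_nat_mul, Real.exp_log h1η]
  rw [hexp, card_choices]
  have h2 := h1 ((exceptional ε a N L w t).image glue) (by
    intro ω hω
    rw [mem_image] at hω
    obtain ⟨c, hc, rfl⟩ := hω
    unfold exceptional at hc
    rw [mem_filter] at hc
    exact glue_mem c hc.1) (by
    intro ω hω hgood
    rw [mem_image] at hω
    obtain ⟨c, hc, rfl⟩ := hω
    unfold exceptional at hc
    rw [mem_filter] at hc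
    apply hc.2
    rw [glue_sum] at hgood
    exact formula_of_good ε _ hgood)
  rw [card_image_of_injective _ glue_inj] at h2
  exact h2

end Pool.Agent.Results.MP_967f73_nt.SumsOfFewDenominators
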